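import Pool.Agent.Helper75.OE.GoalsA

/-!
Packet OE-TRM (MP_fc0446_an): the tripod move keeps the edges of the side matched and gives the
half edge at the beginning its new label.
-/

namespace Pool.Agent.Helper93.OE

open Pool.Agent.Helper73.OE Pool.Agent.Helper73.OE.Sys Pool.Agent.Helper75.OE

variable {H S L : Type} [Group H] (X : Sys H S L)

theorem mt_symm {f : Cfg H S L} {v : H} {s : S} (h : X.Mt f v s) :
    X.Mt f (X.nb v s) (X.bar s) := by
  unfold Mt at h ⊢
  rw [X.nb_bar, X.bar_bar, h, X.tau_tau]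

theorem mt_of_rev {f : Cfg H S L} {v : H} {s : S} (h : X.Mt f (X.nb v s) (X.bar s)) :
    X.Mt f v s := by
  have h2 := mt_symm X h
  rw [X.nb_bar, X.bar_bar] at h2
  exact h2

theorem tau_inj {a b : L} (h : X.tau a = X.tau b) : a = b := by
  rw [← X.tau_tau a, h, X.tau_tau]

theorem ma_congr {O : Edges H S} {A : Set H} {f g : Cfg H S L} (h : ∀ z ∈ A, g z = f z)
    (hf : X.MA O A f) : X.MA O A g := by
  intro z r hz hr hO
  have h2 := hf z r hz hr hO
  unfold Mt at h2 ⊢
  rw [h z hz, h _ hr]
  exact h2

theorem ma_mono {O : Edges H S} {A B : Set H} {f : Cfg H S L} (h : B ⊆ A)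
    (hf : X.MA O A f) : X.MA O B f := fun z r hz hr hO => hf z r (h hz) (h hr) hO

/-- Gluing: matched edges on the changed branches, at the root, and no change elsewhere. -/
theorem ma_glue {O : Edges H S} (hS : X.Sym O) {v : H} {p : S} {f g : Cfg H S L} (T : Set S)
    (ha : ∀ c ∈ T, c ≠ p → X.MA O (X.Sd (X.nb v c) (X.bar c)) g)
    (hb : ∀ c ∈ T, c ≠ p → O v c → X.Mt g v c)
    (hc : ∀ r, r ∉ T → r ≠ p → g v r = f v r)
    (hd : ∀ z, z ≠ v → (∀ c ∈ T, z ∉ X.Sd (X.nb v c) (X.bar c)) → g z = f z)
    (hf : X.MA O (X.Sd v p) f) : X.MA O (X.Sd v p) g := by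
  -- edges at `v`
  have key : ∀ r, X.nb v r ∈ X.Sd v p → O v r → X.Mt g v r := by
    intro r hr hO
    have hrp : r ≠ p := by
      rintro rfl
      exact X.nb_notMem_Sd v r hr
    by_cases hT : r ∈ T
    · exact hb r hT hrp hO
    · have h1 := hf v r (X.self_mem_Sd v p) hr hO
      unfold Mt at h1 ⊢
      rw [hc r hT hrp, hd (X.nb v r) (X.nb_ne v r), h1]
      intro c hcT hmem
      have h2 : c = r := X.branch_unique hmem (X.self_mem_Sd _ _)
      exact hT (h2 ▸ hcT)
  intro z r hz hr hO
  by_cases hzv : z = v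
  · subst hzv
    exact key r hr hO
  by_cases hrv : X.nb z r = v
  · apply mt_of_rev X
    have h1 : O (X.nb z r) (X.bar r) := (hS z r).1 hO
    rw [hrv] at h1 ⊢
    apply key _ _ h1
    have h2 : X.nb v (X.bar r) = z := by rw [← hrv, X.nb_bar]
    rw [h2]
    exact hz
  · obtain ⟨c, hcz⟩ := X.exists_branch hzv
    have hcr : X.nb z r ∈ X.Sd (X.nb v c) (X.bar c) := by
      by_contra h2
      obtain ⟨h3, h4⟩ := X.Sd_edge hcz h2
      apply hrv
      rw [h3, h4, X.nb_bar]
    have hcp : c ≠ p := by
      rintro rfl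
      exact (X.notMem_Sd.2 hcz) hz
    by_cases hT : c ∈ T
    · exact ha c hT hcp z r hcz hcr hO
    · have h1 := hf z r hz hr hO
      unfold Mt at h1 ⊢
      rw [hd z hzv, hd _ hrv, h1]
      · intro d hdT hmem
        exact hT (X.branch_unique hmem hcr ▸ hdT)
      · intro d hdT hmem
        exact hT (X.branch_unique hmem hcz ▸ hdT)

open Classical in
theorem trm (h1 : A_FREC) (h2 : A_FLM) (h3 : A_TREC) (h4 : A_TLOC) : A_TRM := by
  intro H S L _ X O M m v p y k f hS
  induction m generalizing v p y with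
  | zero =>
    intro hy hf hAv
    obtain ⟨hk1, hk2, -, -⟩ := hAv
    obtain ⟨gv, gt, gr, gz⟩ := (h3 H S L X O v p y k f hy hf).2 hk1 hk2
    -- the directions
    generalize ht : (f v).symm y = t at gv gt gr gz
    generalize hr : (f v).symm k = r at gv gt gr gz
    have hft : f v t = y := by rw [← ht]; simp
    have hfr : f v r = k := by rw [← hr]; simp
    have htp : t ≠ p := by
      rintro rfl
      exact hy hft.symm
    have hrp : r ≠ p := by
      rintro rfl
      exact hk1 hfr.symm
    have hrt : r ≠ t := by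
      rintro rfl
      exact hk2 (hfr.symm.trans hft)
    generalize hg : X.TR O 0 v p y k f = g at gv gt gr gz
    have gvc : ∀ c, g v c = (Equiv.swap (f v p) k) ((Equiv.swap (f v p) y) (f v c)) := by
      intro c
      rw [gv]
      rfl
    have gvp : g v p = y := by
      rw [gvc, Equiv.swap_apply_left, Equiv.swap_apply_of_ne_of_ne hy (Ne.symm hk2)]
    have gvt : g v t = k := by
      rw [gvc, hft, Equiv.swap_apply_right, Equiv.swap_apply_left]
    have gvr : g v r = f v p := by
      rw [gvc, hfr, Equiv.swap_apply_of_ne_of_ne hk1 hk2, Equiv.swap_apply_right]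
    refine ⟨gvp, ?_⟩
    have hbr : ∀ c, c ≠ p → X.MA O (X.Sd (X.nb v c) (X.bar c)) f := fun c hc =>
      ma_mono X (X.branch_subset hc) hf
    have hold : ∀ c, c ≠ p → O v c → f (X.nb v c) (X.bar c) = X.tau (f v c) := fun c hc hO =>
      hf v c (X.self_mem_Sd v p) (X.branch_subset hc (X.self_mem_Sd _ _)) hO
    -- a branch with an arm
    have arm : ∀ (c : S) (l : L), c ≠ p → l ≠ f v c → g v c = l →
        (∀ z ∈ X.Sd (X.nb v c) (X.bar c), g z =
          if O v c then X.flip O (X.nb v c) (X.bar c) (X.tau l) f z else f z) →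
        X.MA O (X.Sd (X.nb v c) (X.bar c)) g ∧ (O v c → X.Mt g v c) := by
      intro c l hcp hl hgc hz
      by_cases hO : O v c
      · have hne : X.tau l ≠ f (X.nb v c) (X.bar c) := by
          rw [hold c hcp hO]
          intro h
          exact hl (tau_inj X h)
        have hz2 : ∀ z ∈ X.Sd (X.nb v c) (X.bar c), g z =
            X.flip O (X.nb v c) (X.bar c) (X.tau l) f z := by
          intro z hzz
          rw [hz z hzz, if_pos hO]
        refine ⟨ma_congr X hz2 (h2 H S L X O _ _ _ f hS hne (hbr c hcp)), fun _ => ?_⟩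
        unfold Mt
        rw [hz2 _ (X.self_mem_Sd _ _), (h1 H S L X O _ _ _ f hne (hbr c hcp)).1, hgc]
        simp
      · refine ⟨ma_congr X (fun z hzz => ?_) (hbr c hcp), fun h => absurd h hO⟩
        rw [hz z hzz, if_neg hO]
    have at' := arm t k htp (by rw [hft]; exact hk2) gvt gt
    have ar' := arm r (f v p) hrp (by rw [hfr]; exact Ne.symm hk1) gvr gr
    refine ma_glue X hS ({t, r} : Set S) ?_ ?_ ?_ ?_ hf
    · intro c hc _
      rcases hc with rfl | hc
      · exact at'.1
      · rw [Set.mem_singleton_iff] at hc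
        rw [hc]
        exact ar'.1
    · intro c hc _
      rcases hc with rfl | hc
      · exact at'.2
      · rw [Set.mem_singleton_iff] at hc
        rw [hc]
        exact ar'.2
    · intro c hc hcp
      have hct : c ≠ t := fun h => hc (Or.inl h)
      have hcr : c ≠ r := fun h => hc (Or.inr h)
      have e1 : f v c ≠ f v p := fun h => hcp ((f v).injective h)
      have e2 : f v c ≠ y := by
        rw [← hft]
        exact fun h => hct ((f v).injective h)
      have e3 : f v c ≠ k := by
        rw [← hfr]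
        exact fun h => hcr ((f v).injective h)
      rw [gvc, Equiv.swap_apply_of_ne_of_ne e1 e2, Equiv.swap_apply_of_ne_of_ne e1 e3]
    · intro z hzv hz
      exact gz z hzv (hz t (Or.inl rfl)) (hz r (Or.inr rfl))
  | succ m ih =>
    intro hy hf hAv
    obtain ⟨hO, hAv⟩ := hAv
    obtain ⟨gv, gz⟩ := (h3 H S L X O v p y k f hy hf).1 m
    generalize hs : (f v).symm y = s at hO hAv gv gz
    have hfs : f v s = y := by rw [← hs]; simp
    have hsp : s ≠ p := by
      rintro rfl
      exact hy hfs.symm
    have hbr : X.MA O (X.Sd (X.nb v s) (X.bar s)) f := ma_mono X (X.branch_subset hsp) hf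
    have hold : f (X.nb v s) (X.bar s) = X.tau y := by
      rw [← hfs]
      exact hf v s (X.self_mem_Sd v p) (X.branch_subset hsp (X.self_mem_Sd _ _)) hO
    have hne : X.tau (f v p) ≠ f (X.nb v s) (X.bar s) := by
      rw [hold]
      intro h
      exact hy (tau_inj X h).symm
    obtain ⟨i1, i2⟩ := ih (X.nb v s) (X.bar s) (X.tau (f v p)) hne hbr hAv
    have hloc := ((h4 H S L X O O M m (X.nb v s) (X.bar s) (X.tau (f v p)) k f f hne hbr
      (fun _ _ => rfl) (fun _ _ _ _ => Iff.rfl)).2 hAv).1
    generalize hg : X.TR O (m + 1) v p y k f = g at gv gz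
    have gvc : ∀ c, g v c = (Equiv.swap (f v p) y) (f v c) := by
      intro c
      rw [gv]
      rfl
    have gvp : g v p = y := by
      rw [gvc, Equiv.swap_apply_left]
    have gvs : g v s = f v p := by
      rw [gvc, hfs, Equiv.swap_apply_right]
    refine ⟨gvp, ?_⟩
    refine ma_glue X hS ({s} : Set S) ?_ ?_ ?_ ?_ hf
    · intro c hc _
      rw [Set.mem_singleton_iff] at hc
      rw [hc]
      refine ma_congr X (fun z hz => ?_) i2
      refine gz z ?_
      rintro rfl
      exact X.notMem_Sd_bar z s hz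
    · intro c hc _ _
      rw [Set.mem_singleton_iff] at hc
      rw [hc]
      unfold Mt
      rw [gz _ (X.nb_ne v s), i1, gvs]
    · intro c hc hcp
      have hcs : c ≠ s := fun h => hc h
      have e1 : f v c ≠ f v p := fun h => hcp ((f v).injective h)
      have e2 : f v c ≠ y := by
        rw [← hfs]
        exact fun h => hcs ((f v).injective h)
      rw [gvc, Equiv.swap_apply_of_ne_of_ne e1 e2]
    · intro z hzv hz
      rw [gz z hzv]
      exact hloc z (hz s rfl)

end Pool.Agent.Helper93.OE
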