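import Pool.Agent.Helper75.OE.GoalsA2

/-!
Packet OE-CH2 (MP_fc0446_an): the number of the vertices changed by a flip is at most the length of
the run.
-/

namespace Pool.Agent.Helper93.OE

open Pool.Agent.Helper73.OE Pool.Agent.Helper73.OE.Sys Pool.Agent.Helper75.OE
open scoped ENNReal

/-- The `r`-th vertex of the run. -/
def rv {H S L : Type} [Group H] (X : Sys H S L) (f : Cfg H S L) : ℕ → H → S → L → H
  | 0, v, _, _ => v
  | r + 1, v, p, y => rv X f r (X.nb v ((f v).symm y)) (X.bar ((f v).symm y)) (X.tau (f v p))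

theorem flipP_ne {H S L : Type} [Group H] (X : Sys H S L) (O : Edges H S) (f : Cfg H S L) (z : H)
    (n : ℕ) : ∀ (v : H) (p : S) (y : L), X.flipP O f z n v p y ≠ 1 →
      ∃ r, X.Long O f r v p y ∧ rv X f r v p y = z := by
  induction n with
  | zero =>
    intro v p y h
    refine ⟨0, trivial, ?_⟩
    by_contra hz
    apply h
    unfold Sys.flipP
    rw [if_neg (fun h2 => hz h2.symm)]
  | succ n ih =>
    intro v p y h
    by_cases hz : z = v
    · exact ⟨0, trivial, hz.symm⟩
    · unfold Sys.flipP at h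
      rw [if_neg hz] at h
      by_cases hO : O v ((f v).symm y)
      · rw [if_pos hO] at h
        obtain ⟨r, h1, h2⟩ := ih _ _ _ h
        exact ⟨r + 1, ⟨hO, h1⟩, h2⟩
      · rw [if_neg hO] at h
        exact absurd rfl h

open Classical in
theorem ch2 : A_CH2 := by
  intro H S L _ X O v p y f
  have h1 : ∀ z : H, (if X.flip O v p y f z ≠ f z then (1 : ℝ≥0∞) else 0) ≤
      ∑' r : ℕ, if X.Long O f r v p y ∧ rv X f r v p y = z then (1 : ℝ≥0∞) else 0 := by
    intro z
    by_cases hz : X.flip O v p y f z ≠ f z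
    · rw [if_pos hz]
      have h2 : X.flipP O f z (X.dist v z) v p y ≠ 1 := by
        intro h3
        apply hz
        unfold Sys.flip
        rw [h3]
        rfl
      obtain ⟨r, h3, h4⟩ := flipP_ne X O f z _ v p y h2
      refine le_trans ?_ (ENNReal.le_tsum r)
      rw [if_pos ⟨h3, h4⟩]
    · rw [if_neg hz]
      exact zero_le
  refine (ENNReal.tsum_le_tsum h1).trans ?_
  rw [ENNReal.tsum_comm]
  refine ENNReal.tsum_le_tsum fun r => ?_
  rw [tsum_eq_single (rv X f r v p y)]
  · by_cases hL : X.Long O f r v p y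
    · rw [if_pos hL, if_pos ⟨hL, rfl⟩]
    · rw [if_neg hL, if_neg (fun h => hL h.1)]
  · intro z hz
    rw [if_neg (fun h => hz h.2.symm)]

end Pool.Agent.Helper93.OE
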