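import Pool.Agent.Helper75.OE.GoalsB2

/-!
Packet OE-WIND (MP_fc0446_an): the weight of a branch of a compatible tree is at most `YY`.
-/

namespace Pool.Agent.Helper93.OE

open Pool.Agent.Helper73.OE Pool.Agent.Helper73.OE.Sys Pool.Agent.Helper75.OE Finset
open scoped ENNReal

open Classical in
theorem wind (hW : B_WREC) : B_WIND := by
  intro H S L _ _ X P t ζ κ O Sb q o C Sp k hCT h
  induction h with
  | zero =>
    intro z r hz _ hx
    exact absurd (hx z hz (X.self_mem_Sd z r)) (Nat.not_lt_zero _)
  | succ h ih =>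
    intro z r hz hr hx l hl
    have hrec := (hW H S L X o C (wz X t ζ κ Sb o C Sp) hCT.pc).1 z r hz hr
    rw [hrec]
    clear hrec
    have hchild : ∀ c, c ≠ r → X.dist o (X.nb z c) = X.dist o z + 1 := by
      intro c hc
      rcases X.dist_nb o z c with h1 | h1
      · exact h1
      · exact absurd (X.parent_unique h1 hr) hc
    obtain ⟨Y, hY⟩ : ∃ Y : S → ℝ≥0∞, ∀ c,
        X.YY O Sb q t ζ κ h (X.nb z c) (X.bar c) (X.tau (q z r)) = Y c := ⟨_, fun _ => rfl⟩
    obtain ⟨W, hWc⟩ : ∃ W : S → ℝ≥0∞, ∀ c,
        ∏ x ∈ C.filter (fun x => x ∈ X.Sd (X.nb z c) (X.bar c)), wz X t ζ κ Sb o C Sp x = W c :=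
      ⟨_, fun _ => rfl⟩
    -- the product over the branch beyond a child
    have key : ∀ c, c ≠ r → X.nb z c ∈ C → W c ≤ Y c := by
      intro c hc hcC
      rw [← hWc, ← hY]
      apply ih (X.nb z c) (X.bar c) hcC
      · rw [X.nb_bar]
        exact hchild c hc
      · intro x hxC hxS
        have h1 := hx x hxC (X.branch_subset hc hxS)
        have h2 := X.mem_Sd_bar.1 hxS
        rw [X.dist_comm] at h1 ⊢
        omega
      · intro r' hr'
        rw [X.nb_bar] at hr' ⊢
        rw [X.parent_unique hr' hr]
    simp only [hWc]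
    unfold Sys.YY
    simp only [hY]
    by_cases hSp : z ∈ Sp
    · -- a special vertex
      have e1 : wz X t ζ κ Sb o C Sp z = t * (ζ * ∏ c ∈ univ.erase r,
          (if X.nb z c ∈ C ∧ Sb z c then κ else 1)) := by
        unfold wz
        rw [if_pos hSp]
        congr 2
        rw [← Finset.mul_prod_erase univ _ (Finset.mem_univ r), if_neg, one_mul]
        · refine Finset.prod_congr rfl fun c hc => ?_
          have hc' := hchild c (Finset.ne_of_mem_erase hc)
          by_cases h1 : X.nb z c ∈ C ∧ Sb z c
          · rw [if_pos h1, if_pos ⟨h1.1, hc', h1.2⟩]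
          · rw [if_neg h1, if_neg (fun h2 => h1 ⟨h2.1, h2.2.2⟩)]
        · intro h1
          omega
      rw [e1, mul_assoc, mul_assoc, ← Finset.prod_mul_distrib]
      refine mul_le_mul_right (le_trans (mul_le_mul_right (Finset.prod_le_prod' ?_) ζ)
        le_add_self) t
      intro c hc
      have hcr := Finset.ne_of_mem_erase hc
      by_cases hC : X.nb z c ∈ C
      · rw [if_pos hC]
        by_cases hs : Sb z c
        · rw [if_pos ⟨hC, hs⟩, if_pos hs]
          exact (mul_le_mul_right (key c hcr hC) κ).trans le_add_self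
        · rw [if_neg (fun h2 => hs h2.2), if_neg hs]
          exact (mul_le_mul_right (key c hcr hC) 1).trans le_add_self
      · rw [if_neg hC, if_neg (fun h2 => hC h2.1), one_mul]
        exact le_self_add
    · -- an inner vertex of a run
      obtain ⟨r1, c0, r', h1, h2, h3, h4, h5, h6, h7⟩ := hCT.run z hz hSp
      have hr1 : r1 = r := X.parent_unique h1 hr
      rw [hr1] at h2 h3 h5 h7
      have e1 : wz X t ζ κ Sb o C Sp z = t := by
        unfold wz
        rw [if_neg hSp, mul_one]
      have e2 : ∏ c ∈ univ.erase r, (if X.nb z c ∈ C then W c else 1) = W c0 := by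
        rw [Finset.prod_eq_single c0, if_pos h4]
        · intro c hc hcc
          rw [if_neg]
          intro h8
          rcases h5 c h8 with h9 | h9
          · exact (Finset.ne_of_mem_erase hc) h9
          · exact hcc h9
        · intro h8
          exact absurd (Finset.mem_erase.2 ⟨h3, Finset.mem_univ _⟩) h8
      rw [e1, e2]
      refine mul_le_mul_right (le_trans ?_ le_self_add) t
      have hl' : q z c0 = l := by rw [h7]; exact (hl r' h2).symm
      refine le_trans (key c0 h3 h4) ?_
      have h8 := Finset.single_le_sum (s := univ.erase r)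
        (f := fun c => if q z c = l ∧ O z c then Y c else 0) (fun _ _ => zero_le)
        (Finset.mem_erase.2 ⟨h3, Finset.mem_univ _⟩)
      refine le_trans (le_of_eq ?_) h8
      show Y c0 = if q z c0 = l ∧ O z c0 then Y c0 else 0
      rw [if_pos ⟨hl', h6⟩]

end Pool.Agent.Helper93.OE
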