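import Pool.Agent.Helper78.OE.GoalsC2

/-!
Packet OE-AV0 (MP_fc0446_an): the first moment of the number of the available side labels.
-/

open MeasureTheory Pool.Agent.Helper73.OE Pool.Agent.Helper78.OE
open scoped ENNReal

namespace Pool.Agent.Helper93.OE

variable {H S L : Type} [Group H] (X : Sys H S L) [Fintype S] [Fintype L]

theorem meas_na {ε : ℝ} {μ : Measure (St H S L)} (C : Ctx X ε μ) (M m : ℕ) (v : H) (p : S)
    (y : L) : Measurable (NA X M ε m v p y) := by
  unfold NA
  exact Finset.measurable_fun_sum _ (fun k _ => meas_av X C.meas C.locb ε M m v p y k)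

omit [Fintype S] in
theorem na_succ (M : ℕ) (ε : ℝ) (m : ℕ) (v : H) (p : S) (y : L) (w : St H S L) :
    NA X M ε (m + 1) v p y w = ind (Om X ε w v ((w.1 v).symm y)) *
      NA X M ε m (X.nb v ((w.1 v).symm y)) (X.bar ((w.1 v).symm y)) (X.tau (w.1 v p)) w := by
  unfold NA
  rw [Finset.mul_sum]
  refine Finset.sum_congr rfl fun k _ => ?_
  rw [← ind_and]
  rfl

/-- The part of the first moment belonging to one configuration at `v` and one side label. -/
theorem av0_term {ε : ℝ} {μ : Measure (St H S L)} (C : Ctx X ε μ) (h : ARM X ε μ) (M : ℕ)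
    {v : H} {p : S} {y : L} {G : St H S L → ℝ≥0∞} (hG : Test X v p y G) (σ : S ≃ L)
    (hσ : σ p ≠ y) {k : L} (hk1 : k ≠ σ p) (hk2 : k ≠ y) :
    ∫⁻ w, G w * ind (w.1 v = σ) * ind (X.Av (Om X ε w) M w.1 0 v p y k) ∂μ =
      pE M ε ^ 2 * ∫⁻ w, G w * ind (w.1 v = σ) ∂μ := by
  obtain ⟨t, ht⟩ : ∃ t, σ t = y := ⟨σ.symm y, σ.apply_symm_apply y⟩
  obtain ⟨r, hr⟩ : ∃ r, σ r = k := ⟨σ.symm k, σ.apply_symm_apply k⟩
  have hst : σ.symm y = t := by rw [← ht, σ.symm_apply_apply]
  have hsr : σ.symm k = r := by rw [← hr, σ.symm_apply_apply]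
  have htp : t ≠ p := by
    rintro rfl
    exact hσ ht
  have hrp : r ≠ p := by
    rintro rfl
    exact hk1 hr.symm
  have hrt : r ≠ t := by
    rintro rfl
    exact hk2 (hr.symm.trans ht)
  have hK := Test.mul_eq X hG σ
  have hdt : X.DepOn (X.Sd v t) (fun w : St H S L => G w * ind (w.1 v = σ)) :=
    DepOn.mono X hK.dep (X.Past_subset htp)
  have hdr : X.DepOn (X.Sd v r) (fun w : St H S L => G w * ind (w.1 v = σ)) :=
    DepOn.mono X hK.dep (X.Past_subset hrp)
  have van : ∀ w : St H S L, ∀ (c : S) (l : L), l ≠ σ c → w.1 v c = l →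
      G w * ind (w.1 v = σ) = 0 := by
    intro w c l hl hw
    rw [ind_false, mul_zero]
    intro h2
    rw [h2] at hw
    exact hl hw.symm
  have h0 := h M v t k (fun w => G w * ind (w.1 v = σ)) hK.meas hdt hK.le_one
    (fun w hw => van w t k (by rw [ht]; exact hk2) hw)
  have h1 := h M v r (σ p)
    (fun w => G w * ind (w.1 v = σ) * ind (X.ArmOk (Om X ε w) M w.1 v t k))
    (hK.meas.mul (meas_arm X C.meas C.locb ε M v t k))
    (dep_arm X (X.Past_subset hrt) ε M hdr
      (fun w hw => van w t k (by rw [ht]; exact hk2) hw))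
    (fun w => mul_le_one' (hK.le_one w) (ind_le_one _))
    (fun w hw => by
      show G w * ind (w.1 v = σ) * _ = 0
      rw [van w r (σ p) (by rw [hr]; exact Ne.symm hk1) hw, zero_mul])
  have e1 : ∀ w : St H S L,
      G w * ind (w.1 v = σ) * ind (X.Av (Om X ε w) M w.1 0 v p y k) =
        G w * ind (w.1 v = σ) * ind (X.ArmOk (Om X ε w) M w.1 v t k) *
          ind (X.ArmOk (Om X ε w) M w.1 v r (σ p)) := by
    intro w
    by_cases hw : w.1 v = σ
    · rw [mul_assoc (G w * ind (w.1 v = σ)), ← ind_and]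
      congr 1
      apply ind_congr
      unfold Sys.Av
      rw [hw, hst, hsr]
      exact ⟨fun h => h.2.2, fun h => ⟨hk1, hk2, h⟩⟩
    · rw [ind_false hw]
      simp
  rw [lintegral_congr e1, h1, h0, pow_two, mul_assoc]

open Classical in
theorem av0_zero {ε : ℝ} {μ : Measure (St H S L)} (C : Ctx X ε μ) (h : ARM X ε μ) (M : ℕ)
    (v : H) (p : S) (y : L) (G : St H S L → ℝ≥0∞) (hG : Test X v p y G) :
    ∫⁻ w, G w * NA X M ε 0 v p y w ∂μ =
      (((Fintype.card L - 2 : ℕ) : ℝ≥0∞) * pE M ε ^ 2) * ∫⁻ w, G w ∂μ := by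
  refine eq_of_split μ v (F := fun w => G w * NA X M ε 0 v p y w)
    (hG.meas.mul (meas_na X C M 0 v p y)) hG.meas _ ?_
  intro σ
  by_cases hσ : σ p = y
  · have z1 : ∀ w : St H S L, G w * ind (w.1 v = σ) = 0 := by
      intro w
      by_cases hw : w.1 v = σ
      · rw [hG.van w (by rw [hw]; exact hσ), zero_mul]
      · rw [ind_false hw, mul_zero]
    have z2 : ∀ w : St H S L, G w * NA X M ε 0 v p y w * ind (w.1 v = σ) = 0 := by
      intro w
      rw [mul_right_comm, z1, zero_mul]
    rw [lintegral_congr z2, lintegral_congr z1]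
    simp
  · have e1 : ∀ w : St H S L, G w * NA X M ε 0 v p y w * ind (w.1 v = σ) =
        ∑ k : L, G w * ind (w.1 v = σ) * ind (X.Av (Om X ε w) M w.1 0 v p y k) := by
      intro w
      rw [mul_right_comm]
      unfold NA
      rw [Finset.mul_sum]
    rw [lintegral_congr e1, lintegral_finsetSum
      (f := fun (k : L) (w : St H S L) =>
        G w * ind (w.1 v = σ) * ind (X.Av (Om X ε w) M w.1 0 v p y k)) _
      (fun k _ => (Test.mul_eq X hG σ).meas.mul (meas_av X C.meas C.locb ε M 0 v p y k))]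
    have e2 : ∀ k : L, ∫⁻ w, G w * ind (w.1 v = σ) *
        ind (X.Av (Om X ε w) M w.1 0 v p y k) ∂μ =
          if k ∈ (Finset.univ \ {σ p, y} : Finset L) then
            pE M ε ^ 2 * ∫⁻ w, G w * ind (w.1 v = σ) ∂μ else 0 := by
      intro k
      by_cases hk : k ∈ (Finset.univ \ {σ p, y} : Finset L)
      · rw [if_pos hk]
        simp only [Finset.mem_sdiff, Finset.mem_univ, true_and, Finset.mem_insert,
          Finset.mem_singleton, not_or] at hk
        exact av0_term X C h M hG σ hσ hk.1 hk.2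
      · rw [if_neg hk]
        have z1 : ∀ w : St H S L, G w * ind (w.1 v = σ) *
            ind (X.Av (Om X ε w) M w.1 0 v p y k) = 0 := by
          intro w
          by_cases hw : w.1 v = σ
          · rw [ind_false (p := X.Av (Om X ε w) M w.1 0 v p y k), mul_zero]
            intro h2
            apply hk
            simp only [Finset.mem_sdiff, Finset.mem_univ, true_and, Finset.mem_insert,
              Finset.mem_singleton, not_or]
            refine ⟨?_, h2.2.1⟩
            rw [← hw]
            exact h2.1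
          · rw [ind_false hw]
            simp
        rw [lintegral_congr z1]
        simp
    rw [Finset.sum_congr rfl (fun k _ => e2 k), Finset.sum_ite_mem, Finset.univ_inter,
      Finset.sum_const, nsmul_eq_mul, ← mul_assoc]
    congr 2
    have hcard : (Finset.univ \ {σ p, y} : Finset L).card = Fintype.card L - 2 := by
      rw [Finset.card_sdiff_of_subset (Finset.subset_univ _), Finset.card_pair hσ,
        Finset.card_univ]
    rw [hcard]

theorem av0 {ε : ℝ} {μ : Measure (St H S L)} (C : Ctx X ε μ) (hS : SHIFT X ε μ)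
    (h : ARM X ε μ) : AV0 X ε μ := by
  intro M m
  induction m with
  | zero =>
    intro v p y G hG
    rw [av0_zero X C h M v p y G hG, pow_zero, one_mul]
  | succ m ih =>
    intro v p y G hG
    have h1 := (hS (fun v p y w => NA X M ε m v p y w)
      (sg ε ^ m * (((Fintype.card L - 2 : ℕ) : ℝ≥0∞) * pE M ε ^ 2))
      (fun v p y => meas_na X C M m v p y)).2 (fun v p y G hG => ih v p y G hG) v p y G hG
    have e1 : ∀ w : St H S L, G w * NA X M ε (m + 1) v p y w =
        G w * (ind (Om X ε w v ((w.1 v).symm y)) *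
          NA X M ε m (X.nb v ((w.1 v).symm y)) (X.bar ((w.1 v).symm y))
            (X.tau (w.1 v p)) w) := fun w => by rw [na_succ]
    rw [lintegral_congr e1, h1, ← mul_assoc (sg ε), ← pow_succ']

end Pool.Agent.Helper93.OE
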